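import Mathlib

set_option autoImplicit false

namespace Pool.Agent.H.MP_8a8b2f_an
open MeasureTheory Set Filter Topology

lemma key {E : Type} [NormedAddCommGroup E] [NormedSpace ℂ E] (T : ℝ → E →L[ℂ] E)
    (h0 : T 0 = ContinuousLinearMap.id ℂ E)
    (h1 : ∀ s t : ℝ, 0 ≤ s → 0 ≤ t → T (s + t) = (T s).comp (T t))
    (h2 : ∀ x : E, ContinuousOn (fun t : ℝ => T t x) (Ici 0)) (h3 : ∀ t : ℝ, 0 ≤ t → ‖T t‖ ≤ 1)
    (x y : E) (h : Tendsto (fun h : ℝ => ((h : ℂ)⁻¹) • (T h x - x)) (𝓝[>] 0) (𝓝 y)) (μ : ℂ)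
    (hμ : μ.re < 0) (a : ℝ) (ha : 0 ≤ a) :
    ‖Complex.exp (-μ * a) • T a x - x‖ ≤ Real.exp (-μ.re * a) * ‖μ • x - y‖ * a := by
  have d1 : ∀ t : ℝ, 0 ≤ t → HasDerivWithinAt (fun s : ℝ => T s x) (T t y) (Ici t) t := by
    intro t ht
    rw [← hasDerivWithinAt_Ioi_iff_Ici, hasDerivWithinAt_iff_tendsto_slope' (by simp)]
    have b : Tendsto (fun s : ℝ => s - t) (𝓝[>] t) (𝓝[>] 0) :=
      tendsto_nhdsWithin_iff.mpr ⟨by
        have := ((continuous_sub_right t).tendsto t).mono_left (nhdsWithin_le_nhds (s := Ioi t))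
        simpa using this, by
        filter_upwards [self_mem_nhdsWithin] with s hs
        exact sub_pos.mpr (show t < s from hs)⟩
    refine (((T t).continuous.tendsto y).comp (h.comp b)).congr' ?_
    filter_upwards [self_mem_nhdsWithin] with s hs
    have e := h1 t (s - t) ht (sub_pos.mpr (show t < s from hs)).le
    rw [add_sub_cancel] at e
    simp only [Function.comp, slope_def_module, map_smul, map_sub, e, ← Complex.ofReal_inv,
      Complex.coe_smul, ContinuousLinearMap.comp_apply]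
    rw [← Complex.coe_smul, ← Complex.coe_smul, map_smul, map_sub]
  have d2 : ∀ t : ℝ, HasDerivAt (fun s : ℝ => Complex.exp (-μ * s)) (Complex.exp (-μ * t) * -μ) t :=
    fun t => by
      have := (((hasDerivAt_id (t:ℂ)).const_mul (-μ)).cexp).comp_ofReal
      simpa using this
  have := norm_image_sub_le_of_norm_deriv_right_le_segment
    (f := fun s : ℝ => Complex.exp (-μ * s) • T s x) (a := 0) (b := a)
    (f' := fun t => -(Complex.exp (-μ * t) • T t (μ • x - y)))
    (C := Real.exp (-μ.re * a) * ‖μ • x - y‖)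
    (ContinuousOn.smul (by fun_prop) ((h2 x).mono Icc_subset_Ici_self)) (fun t ht => by
      have := (d2 t).hasDerivWithinAt.smul (d1 t ht.1)
      refine (congrArg (fun v => HasDerivWithinAt _ v _ _) ?_).mp this
      rw [map_sub, map_smul]
      module) (fun t ht => by
      rw [norm_neg, norm_smul, Complex.norm_exp]
      refine mul_le_mul (Real.exp_le_exp.mpr ?_) (((T t).le_opNorm _).trans
        (mul_le_of_le_one_left (norm_nonneg _) (h3 t ht.1))) (norm_nonneg _) (Real.exp_pos _).le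
      simp only [Complex.mul_re, Complex.neg_re, Complex.ofReal_re, Complex.ofReal_im, mul_zero,
        sub_zero]
      nlinarith [ht.2]) a ⟨ha, le_rfl⟩
  simpa [h0] using this

abbrev L : Type := Lp ℂ 2 (volume : Measure ℝ)

lemma mem (φ : ℝ → ℝ) (hm : Measurable φ) (hb : ∀ x, |φ x| ≤ 1) (f : L) :
    MemLp (fun x => (φ x : ℂ) * f x) 2 volume :=
  (Lp.memLp f).of_le_mul (c := 1) ((Complex.measurable_ofReal.comp hm).aestronglyMeasurable.mul
    (Lp.aestronglyMeasurable f)) (Eventually.of_forall fun x => by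
      rw [norm_mul, Complex.norm_real]
      exact mul_le_mul_of_nonneg_right (hb x) (norm_nonneg _))

noncomputable def M (φ : ℝ → ℝ) (hm : Measurable φ) (hb : ∀ x, |φ x| ≤ 1) : L →L[ℂ] L :=
  LinearMap.mkContinuous
    { toFun := fun f => (mem φ hm hb f).toLp _
      map_add' := fun f g => by
        rw [← MemLp.toLp_add]
        refine MemLp.toLp_congr _ _ ?_
        filter_upwards [Lp.coeFn_add f g] with x hx
        rw [hx, Pi.add_apply, Pi.add_apply, mul_add]
      map_smul' := fun c f => by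
        rw [RingHom.id_apply, ← MemLp.toLp_const_smul]
        refine MemLp.toLp_congr _ _ ?_
        filter_upwards [Lp.coeFn_smul c f] with x hx
        rw [hx, Pi.smul_apply, Pi.smul_apply, smul_eq_mul, smul_eq_mul, mul_left_comm] } 1
    fun f => Lp.norm_le_mul_norm_of_ae_le_mul (by
      filter_upwards [MemLp.coeFn_toLp (mem φ hm hb f)] with x hx
      refine (congrArg norm hx).trans_le ?_
      rw [norm_mul, Complex.norm_real]
      exact mul_le_mul_of_nonneg_right (hb x) (norm_nonneg _))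

lemma M_coe (φ : ℝ → ℝ) (hm : Measurable φ) (hb : ∀ x, |φ x| ≤ 1) (f : L) :
    M φ hm hb f =ᵐ[volume] fun x => (φ x : ℂ) * f x := MemLp.coeFn_toLp (mem φ hm hb f)

noncomputable def U (t : ℝ) : L →L[ℂ] L :=
  (Lp.compMeasurePreservingₗᵢ ℂ (fun x : ℝ => x - t)
    (measurePreserving_sub_right volume t)).toContinuousLinearMap

lemma U_coe (t : ℝ) (f : L) : U t f =ᵐ[volume] fun x => f (x - t) :=
  Lp.coeFn_compMeasurePreserving f (measurePreserving_sub_right volume t)
lemma U_norm (t : ℝ) (f : L) : ‖U t f‖ = ‖f‖ :=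
  Lp.norm_compMeasurePreserving f (measurePreserving_sub_right volume t)
lemma U_cont (f : L) : Continuous fun t => U t f :=
  Continuous.compMeasurePreservingLp (f := fun _ : ℝ => f)
    (g := fun t : ℝ => (⟨fun x : ℝ => x - t, by fun_prop⟩ : C(ℝ, ℝ))) continuous_const
    (ContinuousMap.continuous_of_continuous_uncurry _ (by
      unfold Function.uncurry; simp only [ContinuousMap.coe_mk]; fun_prop))
    (fun t => measurePreserving_sub_right volume t) (by norm_num)
lemma sh {p : ℝ → Prop} (h : ∀ᵐ x, p x) (t : ℝ) : ∀ᵐ x, p (x - t) :=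
  (measurePreserving_sub_right volume t).quasiMeasurePreserving.ae h

noncomputable def ψ (t x : ℝ) : ℝ := (1 + max (x - |t|) 0) / (1 + max x 0)

lemma ψ_pos (t x : ℝ) : 0 < ψ t x := by unfold ψ; positivity
lemma ψ_le (t x : ℝ) : |ψ t x| ≤ 1 := by
  rw [abs_of_pos (ψ_pos t x), ψ, div_le_one (by positivity)]
  have := max_le_max_right 0 (sub_le_self x (abs_nonneg t))
  linarith

noncomputable def S (t : ℝ) : L →L[ℂ] L :=
  (M (ψ t) (by unfold ψ; fun_prop) (ψ_le t)).comp (U |t|)

lemma S_coe (t : ℝ) (f : L) : S t f =ᵐ[volume] fun x => (ψ t x : ℂ) * f (x - |t|) := by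
  filter_upwards [M_coe (ψ t) (by unfold ψ; fun_prop) (ψ_le t) (U |t| f), U_coe |t| f] with x h1 h2
  exact h1.trans (by rw [h2])

lemma S_le (t : ℝ) (f : L) (c : ℝ) (h : ∀ᵐ x, f x ≠ 0 → ψ t (x + |t|) ≤ c) :
    ‖S t f‖ ≤ c * ‖f‖ := by
  rw [← U_norm |t| f]
  refine Lp.norm_le_mul_norm_of_ae_le_mul ?_
  filter_upwards [S_coe t f, U_coe |t| f, sh h |t|] with x h1 h2 h3
  rw [h1, h2, norm_mul, Complex.norm_real, Real.norm_of_nonneg (ψ_pos t x).le]
  by_cases h : f (x - |t|) = 0
  · simp [h]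
  · exact mul_le_mul_of_nonneg_right (by simpa using h3 h) (norm_nonneg _)

lemma le_S (t : ℝ) (f : L) (h : ∀ᵐ x, x < |t| → f x = 0) : ‖f‖ ≤ 2 * ‖S t f‖ := by
  rw [← U_norm |t| f]
  refine Lp.norm_le_mul_norm_of_ae_le_mul ?_
  filter_upwards [S_coe t f, U_coe |t| f, sh h |t|] with x h1 h2 h3
  rw [h1, h2, norm_mul, Complex.norm_real, Real.norm_of_nonneg (ψ_pos t x).le]
  rcases lt_or_ge (x - |t|) |t| with h | h
  · simp [h3 h]
  · have := abs_nonneg t
    have a : 1/2 ≤ ψ t x := by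
      rw [ψ, max_eq_left (by linarith), max_eq_left (by linarith), le_div_iff₀ (by linarith)]
      linarith
    nlinarith [norm_nonneg (f (x - |t|))]

lemma S_one (t : ℝ) (f : L) : ‖S t f‖ ≤ 1 * ‖f‖ :=
  S_le t f 1 (Eventually.of_forall fun _ _ => (le_abs_self _).trans (ψ_le _ _))

lemma S_zero (f : L) : S 0 f = f := by
  ext
  filter_upwards [S_coe 0 f] with x hx
  have : ψ 0 x = 1 := by
    simp only [ψ, abs_zero, sub_zero]; exact div_self (by positivity)
  simpa [this] using hx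

lemma S_add {s t : ℝ} (hs : 0 ≤ s) (ht : 0 ≤ t) (f : L) : S (s + t) f = S s (S t f) := by
  ext
  filter_upwards [S_coe (s + t) f, S_coe s (S t f), sh (S_coe t f) |s|] with x h1 h2 h3
  rw [h1, h2, h3, ← mul_assoc, ← Complex.ofReal_mul]
  simp only [ψ, abs_of_nonneg hs, abs_of_nonneg ht, abs_of_nonneg (add_nonneg hs ht), sub_sub]
  congr 2
  have : 0 < 1 + max (x - s) 0 := by positivity
  field_simp

lemma S_cont (f : L) : Continuous fun t => S t f := by
  refine continuous_iff_continuousAt.mpr fun s => tendsto_iff_norm_sub_tendsto_zero.mpr ?_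
  have c := ((U_cont f).comp continuous_abs).sub (continuous_const (y := U |s| f))
  have lim : Tendsto (fun t => ‖U |t| f - U |s| f‖ + |t - s| * ‖f‖) (𝓝 s) (𝓝 0) := by
    have c2 : Continuous fun t => ‖U |t| f - U |s| f‖ + |t - s| * ‖f‖ :=
      c.norm.add ((continuous_sub_right s).abs.mul (continuous_const (y := ‖f‖)))
    simpa using c2.tendsto s
  refine squeeze_zero (fun _ => norm_nonneg _) (fun t => ?_) lim
  have e : S t f - S s f = M (ψ t) (by unfold ψ; fun_prop) (ψ_le t) (U |t| f - U |s| f) +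
      (M (ψ t) (by unfold ψ; fun_prop) (ψ_le t) (U |s| f) - S s f) := by
    rw [map_sub]; simp [S]
  rw [e]
  refine (norm_add_le _ _).trans (add_le_add ?_ ?_)
  · refine Lp.norm_le_norm_of_ae_le ?_
    filter_upwards [M_coe (ψ t) (by unfold ψ; fun_prop) (ψ_le t) (U |t| f - U |s| f)] with x hx
    rw [hx, norm_mul, Complex.norm_real]
    exact mul_le_of_le_one_left (norm_nonneg _) (ψ_le t x)
  · rw [← U_norm |s| f]
    refine Lp.norm_le_mul_norm_of_ae_le_mul ?_
    filter_upwards [Lp.coeFn_sub (M (ψ t) (by unfold ψ; fun_prop) (ψ_le t) (U |s| f)) (S s f),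
      M_coe (ψ t) (by unfold ψ; fun_prop) (ψ_le t) (U |s| f), S_coe s f, U_coe |s| f]
      with x h1 h2 h3 h4
    rw [h1, Pi.sub_apply, h2, h3, h4, ← sub_mul, norm_mul, ← Complex.ofReal_sub, Complex.norm_real]
    refine mul_le_mul_of_nonneg_right ?_ (norm_nonneg _)
    rw [ψ, ψ, ← sub_div, Real.norm_eq_abs, abs_div, add_sub_add_left_eq_sub]
    refine (div_le_self (abs_nonneg _) ?_).trans ((abs_max_sub_max_le_abs _ _ _).trans ?_)
    · rw [abs_of_pos (by positivity)]; linarith [le_max_right x 0]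
    · rw [sub_sub_sub_cancel_left, abs_sub_comm]; exact abs_abs_sub_abs_le_abs_sub _ _

noncomputable def N (a : ℝ) : L →L[ℂ] L :=
  M (indicator (Iio a) 1) (measurable_one.indicator measurableSet_Iio) fun x => by
    by_cases h : x ∈ Iio a <;> simp [h]

lemma N_coe (a : ℝ) (f : L) : ∀ᵐ x, N a f x = if x < a then f x else 0 := by
  filter_upwards [M_coe (indicator (Iio a) 1) (measurable_one.indicator measurableSet_Iio)
    (fun x => by by_cases h : x ∈ Iio a <;> simp [h]) f] with x hx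
  refine hx.trans ?_
  by_cases h : x < a <;> simp [h]

lemma N_eq (a : ℝ) (f : L) : N a f = 0 ↔ ∀ᵐ x, x < a → f x = 0 := by
  rw [Lp.eq_zero_iff_ae_eq_zero]
  refine eventually_congr ?_
  filter_upwards [N_coe a f] with x hx
  rw [hx]
  by_cases h : x < a <;> simp [h]

lemma N_le (a : ℝ) (f : L) : ‖N a f‖ ≤ ‖f‖ := Lp.norm_le_norm_of_ae_le (by
  filter_upwards [N_coe a f] with x hx
  rw [hx]
  by_cases h : x < a <;> simp [h])

lemma N_S (a t : ℝ) (ha : a ≤ |t|) (f : L) (hf : N 0 f = 0) : N a (S t f) = 0 := by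
  rw [N_eq] at hf ⊢
  filter_upwards [S_coe t f, sh hf |t|] with x h1 h2 h
  rw [h1, h2 (by linarith), mul_zero]

noncomputable def H : Submodule ℂ L := (N 0).ker

instance : CompleteSpace H := (N 0).isClosed_ker.completeSpace_coe

noncomputable def T (t : ℝ) : H →L[ℂ] H :=
  ((S t).comp H.subtypeL).codRestrict H fun f => N_S 0 t (abs_nonneg t) f f.2

lemma T_coe (t : ℝ) (f : H) : (T t f : L) = S t f := rfl

lemma low (a : ℝ) (ha : 0 < a) (x : H) (c : ℂ) (hc : ‖c‖ = Real.exp 1) :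
    ‖x‖ ≤ 20 * ‖c • T a x - x‖ := by
  have e : ‖c • T a x - x‖ = ‖c • S a x - x‖ := rfl
  have e' : ‖x‖ = ‖(x : L)‖ := rfl
  rw [e, e']
  set r := ‖c • S a (x : L) - x‖
  have h1 : ‖N a x‖ ≤ r := by
    have := N_le a (c • S a (x : L) - x)
    rwa [map_sub, map_smul, N_S a a (le_abs_self a) x x.2, smul_zero, zero_sub, norm_neg] at this
  have h2 := le_S a (x - N a x) (by
    filter_upwards [Lp.coeFn_sub (x : L) (N a x), N_coe a x] with u h1 h2 h
    rw [abs_of_pos ha] at h
    rw [h1, Pi.sub_apply, h2, if_pos h, sub_self])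
  have h3 := norm_sub_le (S a x) (S a (N a x))
  rw [← map_sub] at h3
  have h4 := S_one a (N a x)
  have h5 := norm_le_norm_sub_add (x : L) (N a x)
  have h6 := norm_le_norm_sub_add (c • S a (x : L)) x
  rw [norm_smul, hc] at h6
  have h7 := Real.exp_one_gt_d9
  have h8 := norm_nonneg (S a (x : L))
  nlinarith

lemma small (t : ℝ) (ht : 0 ≤ t) : ∃ x : H, ‖x‖ = 1 ∧ ‖T t x‖ ≤ 2 / (1 + t) := by
  let f : L := indicatorConstLp 2 (measurableSet_Icc (a := (0:ℝ)) (b := 1)) (by simp) (1:ℂ)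
  have h0 : ∀ᵐ x, x ∉ Icc (0:ℝ) 1 → f x = 0 := indicatorConstLp_coeFn_notMem
  have h1 : ‖f‖ = 1 := by
    rw [norm_indicatorConstLp (by norm_num) (by norm_num)]; simp
  refine ⟨⟨f, (N_eq 0 f).mpr ?_⟩, h1, ?_⟩
  · filter_upwards [h0] with x hx h
    exact hx fun h' => by linarith [h'.1]
  · have := S_le t f (2 / (1 + t)) (by
      filter_upwards [h0] with x hx h
      have hx' : x ∈ Icc (0:ℝ) 1 := by by_contra h'; exact h (hx h')
      rw [ψ, abs_of_nonneg ht, add_sub_cancel_right, max_eq_left hx'.1,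
        max_eq_left (by linarith [hx'.1])]
      exact div_le_div₀ (by norm_num) (by linarith [hx'.2]) (by linarith) (by linarith [hx'.1]))
    rwa [h1, mul_one] at this

end Pool.Agent.H.MP_8a8b2f_an
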